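import Pool.Agent.N124.CU.Stm2

set_option autoImplicit false

namespace Pool.Agent.N15.CU

open Filter Topology Pool.Agent.N124.CU

theorem split_gen {A B D : ℂ → ℂ} (hA : ContinuousAt A 0) (hB : ContinuousAt B 0)
    (hD : ContinuousAt D 0) (hA0 : A 0 ≠ 0) (hB0 : B 0 ≠ 0) :
    ∃ p q : ℂ → ℂ,
      (∀ᶠ s in 𝓝[≠] (0 : ℂ), A s ≠ 0 ∧ B s ≠ 0 ∧
        A s * p s ^ 2 + B s * p s + s * D s = 0 ∧ A s * q s ^ 2 + B s * q s + s * D s = 0 ∧
        ∀ g : ℂ → ℂ, QP (A s) (B s) (s * D s) g = g (p s) * g (q s)) ∧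
      Tendsto (fun s => p s / s) (𝓝[≠] 0) (𝓝 (-D 0 / B 0)) ∧
      Tendsto q (𝓝[≠] 0) (𝓝 (-B 0 / A 0)) := by
  set θ : ℂ → ℂ := fun s => rt (1 - 4 * A s * (s * D s) / B s ^ 2) with hθ
  have hθc : ContinuousAt θ 0 := by
    refine rt_contAt_one ?_ ?_
    · refine continuousAt_const.sub (ContinuousAt.div₀ (by fun_prop) (by fun_prop) (pow_ne_zero _ hB0))
    · simp
  have hθ0 : θ 0 = 1 := by simp [hθ, rt_one]
  have e1 : ∀ᶠ s in 𝓝 (0 : ℂ), A s ≠ 0 := hA.eventually_ne hA0
  have e2 : ∀ᶠ s in 𝓝 (0 : ℂ), B s ≠ 0 := hB.eventually_ne hB0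
  have e3 : ∀ᶠ s in 𝓝 (0 : ℂ), 1 + θ s ≠ 0 := by
    have : ContinuousAt (fun s => 1 + θ s) 0 := continuousAt_const.add hθc
    refine this.eventually_ne ?_
    simp only [hθ0]; norm_num
  refine ⟨fun s => -(2 * (s * D s)) / (B s * (1 + θ s)), fun s => -(B s * (1 + θ s)) / (2 * A s),
    ?_, ?_, ?_⟩
  · refine eventually_nhdsWithin_of_eventually_nhds ?_
    filter_upwards [e1, e2, e3] with s h1 h2 h3
    have h4 : θ s ^ 2 = 1 - 4 * A s * (s * D s) / B s ^ 2 := rt_sq _
    have h5 : θ s ^ 2 * B s ^ 2 = B s ^ 2 - 4 * A s * (s * D s) := by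
      rw [h4]; field_simp
    refine ⟨h1, h2, ?_, ?_, fun g => QP_split h1 h2 h4 h3 g⟩
    · field_simp
      linear_combination (s * D s) * h5
    · field_simp
      linear_combination h5
  · have : ContinuousAt (fun s => -(2 * D s) / (B s * (1 + θ s))) 0 := by
      refine ContinuousAt.div₀ (by fun_prop) (hB.mul (continuousAt_const.add hθc)) ?_
      rw [hθ0]
      exact mul_ne_zero hB0 (by norm_num)
    have h2 : Tendsto (fun s => -(2 * D s) / (B s * (1 + θ s))) (𝓝[≠] 0) (𝓝 (-D 0 / B 0)) := by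
      have h3 := this.tendsto.mono_left (nhdsWithin_le_nhds (s := {0}ᶜ))
      have h4 : -(2 * D 0) / (B 0 * (1 + θ 0)) = -D 0 / B 0 := by
        rw [hθ0]; field_simp; ring
      rw [h4] at h3
      exact h3
    refine h2.congr' ?_
    filter_upwards [self_mem_nhdsWithin] with s hs
    have hs' : s ≠ 0 := hs
    field_simp
  · have : ContinuousAt (fun s => -(B s * (1 + θ s)) / (2 * A s)) 0 := by
      refine ContinuousAt.div₀ (hB.mul (continuousAt_const.add hθc)).neg (by fun_prop) ?_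
      exact mul_ne_zero two_ne_zero hA0
    have h3 := this.tendsto.mono_left (nhdsWithin_le_nhds (s := {0}ᶜ))
    have h4 : -(B 0 * (1 + θ 0)) / (2 * A 0) = -B 0 / A 0 := by
      rw [hθ0]; field_simp; ring
    rw [h4] at h3
    exact h3

theorem t_c0 : S_c0 := by
  intro P ha1 hga habp
  obtain ⟨p, q, h1, h2, h3⟩ := split_gen (A := fun s => P.de * s + P.a1)
    (B := fun s => -((1 + s) * (P.de * s + P.a1) + (P.ga - P.bp) * s))
    (D := fun s => (1 + s) * P.ga) (by fun_prop) (by fun_prop) (by fun_prop)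
    (by simpa using ha1) (by simpa using ha1)
  have hs1 : ∀ᶠ s in 𝓝[≠] (0 : ℂ), 1 + s ≠ 0 := by
    refine eventually_nhdsWithin_of_eventually_nhds ?_
    have : ContinuousAt (fun s : ℂ => 1 + s) 0 := by fun_prop
    exact this.eventually_ne (by simp)
  have hq1 : Tendsto q (𝓝[≠] 0) (𝓝 1) := by
    convert h3 using 2
    simp [ha1]
  have hp0 : Tendsto p (𝓝[≠] 0) (𝓝 0) := by
    have h4 : Tendsto (fun s : ℂ => s) (𝓝[≠] 0) (𝓝 0) := nhdsWithin_le_nhds
    have h5 := h2.mul h4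
    rw [mul_zero] at h5
    refine h5.congr' ?_
    filter_upwards [self_mem_nhdsWithin] with s hs
    have hs' : s ≠ 0 := hs
    field_simp
  have hsid : Tendsto (fun s : ℂ => s) (𝓝[≠] 0) (𝓝 0) := nhdsWithin_le_nhds
  have hRQ : ∀ᶠ s in 𝓝[≠] (0 : ℂ), p s ≠ 0 ∧ q s ≠ 0 ∧ P.RQ s (p s) ∧ P.RQ s (q s) := by
    filter_upwards [h1, hs1, self_mem_nhdsWithin] with s hs hs1 hs0
    have hs' : s ≠ 0 := hs0
    obtain ⟨k1, k2, k3, k4, -⟩ := hs
    have hC : s * ((1 + s) * P.ga) ≠ 0 := mul_ne_zero hs' (mul_ne_zero hs1 hga)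
    refine ⟨?_, ?_, ?_, ?_⟩
    · intro h
      rw [h] at k3
      exact hC (by linear_combination k3)
    · intro h
      rw [h] at k4
      exact hC (by linear_combination k4)
    · unfold Par.RQ Par.qb Par.qc Par.eta
      field_simp
      linear_combination k3
    · unfold Par.RQ Par.qb Par.qc Par.eta
      field_simp
      linear_combination k4
  refine ⟨p, q, ?_, ?_, ?_, ?_⟩
  · filter_upwards [h1, self_mem_nhdsWithin] with s hs hs0 g
    have hs' : s ≠ 0 := hs0
    rw [← hs.2.2.2.2 g, zero_add, ← QP_scale hs']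
    congr 1
    · unfold Par.eta; field_simp
    · unfold Par.qb Par.eta; field_simp; ring
  · convert h2 using 2
    simp [neg_div_neg_eq]
  · have h4 : Tendsto (fun s => 1 + P.bp / (s * (P.ga / q s) - (P.de * s + P.a1))) (𝓝[≠] 0)
        (𝓝 (1 + P.bp / (0 * (P.ga / 1) - (P.de * 0 + P.a1)))) := by
      refine tendsto_const_nhds.add (tendsto_const_nhds.div ((hsid.mul
        (tendsto_const_nhds.div hq1 one_ne_zero)).sub ((tendsto_const_nhds.mul hsid).add
        tendsto_const_nhds)) ?_)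
      simpa using ha1
    have h5 : 1 + P.bp / (0 * (P.ga / 1) - (P.de * 0 + P.a1)) = (P.a1 - P.bp) / P.a1 := by
      field_simp
      simp only [zero_mul, zero_add, zero_sub]
      field_simp
      ring
    rw [h5] at h4
    have h6 : ∀ᶠ s in 𝓝[≠] (0 : ℂ), s * (P.ga / q s) - (P.de * s + P.a1) ≠ 0 := by
      have h7 : Tendsto (fun s => s * (P.ga / q s) - (P.de * s + P.a1)) (𝓝[≠] 0)
          (𝓝 (0 * (P.ga / 1) - (P.de * 0 + P.a1))) :=
        (hsid.mul (tendsto_const_nhds.div hq1 one_ne_zero)).sub ((tendsto_const_nhds.mul hsid).add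
          tendsto_const_nhds)
      exact h7.eventually_ne (by simpa using ha1)
    refine h4.congr' ?_
    filter_upwards [hRQ, h6, self_mem_nhdsWithin] with s hs h6 hs0
    have hs' : s ≠ 0 := hs0
    have h8 := (P.RQ_iff hs.2.1).mp hs.2.2.2
    have h9 : s * (P.ga / q s - P.eta s) = s * (P.ga / q s) - (P.de * s + P.a1) := by
      unfold Par.eta; field_simp
    have h10 : P.bp * s = (q s - (1 + s)) * (s * (P.ga / q s) - (P.de * s + P.a1)) := by
      rw [← h9, ← h8]; ring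
    rw [eq_div_iff hs']
    have h11 : P.bp / (s * (P.ga / q s) - (P.de * s + P.a1)) * s = q s - (1 + s) := by
      rw [div_mul_eq_mul_div, div_eq_iff h6, h10]
    linear_combination h11
  · have h4 : Tendsto (fun s => P.bp / (p s - (1 + s))) (𝓝[≠] 0) (𝓝 (P.bp / (0 - (1 + 0)))) := by
      refine tendsto_const_nhds.div (hp0.sub (tendsto_const_nhds.add hsid)) ?_
      norm_num
    have h5 : P.bp / (0 - (1 + 0)) = -P.bp := by
      norm_num
      rw [div_neg, div_one]
    rw [h5] at h4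
    have h6 : ∀ᶠ s in 𝓝[≠] (0 : ℂ), p s - (1 + s) ≠ 0 := by
      have h7 : Tendsto (fun s => p s - (1 + s)) (𝓝[≠] 0) (𝓝 (0 - (1 + 0))) :=
        hp0.sub (tendsto_const_nhds.add hsid)
      exact h7.eventually_ne (by norm_num)
    refine h4.congr' ?_
    filter_upwards [hRQ, h6] with s hs h6
    have h8 := (P.RQ_iff hs.1).mp hs.2.2.1
    rw [div_eq_iff h6, ← h8]
    ring

theorem t_c1 : S_c1 := by
  intro P hga hda hgb
  have hd : P.de - P.a1 ≠ 0 := sub_ne_zero.mpr hda
  have hg : P.ga - P.bp ≠ 0 := sub_ne_zero.mpr hgb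
  have heta : ContinuousAt (fun s => P.eta (-1 + s)) 0 := by
    unfold Par.eta
    refine continuousAt_const.add (ContinuousAt.div₀ continuousAt_const (by fun_prop) (by simp))
  have hB : ContinuousAt (fun s => P.qb (-1 + s)) 0 := by
    unfold Par.qb
    fun_prop
  obtain ⟨p, q, h1, h2, h3⟩ := split_gen (A := fun s => P.eta (-1 + s))
    (B := fun s => P.qb (-1 + s)) (D := fun _ => P.ga) heta hB (by fun_prop)
    (by
      simp only [Par.eta, add_zero]
      rw [div_neg, div_one]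
      exact hd)
    (by
      simp only [Par.qb, add_zero, add_neg_cancel, zero_mul, zero_add]
      exact neg_ne_zero.mpr hg)
  refine ⟨p, q, ?_, ?_, ?_⟩
  · filter_upwards [h1] with s hs g
    rw [← hs.2.2.2.2 g]
    congr 1
    unfold Par.qc
    ring
  · convert h2 using 2
    simp only [Par.qb, add_zero, add_neg_cancel, zero_mul, zero_add]
    rw [neg_div_neg_eq]
  · convert h3 using 2
    simp only [Par.qb, Par.eta, add_zero, add_neg_cancel, zero_mul, zero_add]
    rw [neg_neg, div_neg, div_one, ← sub_eq_add_neg]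

end Pool.Agent.N15.CU
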